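import Mathlib

set_option autoImplicit false

namespace Pool.Agent.H46.RA

open Filter Finset Topology
open scoped ENNReal

theorem foster_enn {X : Type} [DecidableEq X] (P : X → X → ℝ≥0∞) (hP : ∀ x, ∑' y, P x y = 1)
    (V : X → ℝ≥0∞) (x0 : X) (hV : V x0 ≠ ⊤) (F : Finset X) (b : ℝ≥0∞) (hb : b ≠ ⊤)
    (hd : ∀ x, ∑' y, P x y * V y + 1 ≤ V x + if x ∈ F then b else 0) :
    ∃ μ : X → ℝ≥0∞, ∑' x, μ x = 1 ∧ ∀ y, μ y = ∑' x, μ x * P x y := by
  let ν : ℕ → X → ℝ≥0∞ := fun n =>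
    Nat.rec (fun y => if y = x0 then 1 else 0) (fun _ m y => ∑' x, m x * P x y) n
  have ν0 : ∀ y, ν 0 y = if y = x0 then 1 else 0 := fun y => rfl
  have νs : ∀ n y, ν (n + 1) y = ∑' x, ν n x * P x y := fun n y => rfl
  have mass : ∀ m : X → ℝ≥0∞, ∑' y, ∑' x, m x * P x y = ∑' x, m x := fun m => by
    rw [ENNReal.tsum_comm]
    simp only [ENNReal.tsum_mul_left, hP, mul_one]
  have m1 : ∀ n, ∑' y, ν n y = 1 := by
    intro n
    induction n with
    | zero => simp [ν0]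
    | succ n ih => simp only [νs, mass, ih]
  have d1 : ∀ n : ℕ, ∑' y, ν n y * V y + n ≤ V x0 + b * ∑ i ∈ range n, ∑ x ∈ F, ν i x := by
    intro n
    induction n with
    | zero => simp [ν0]
    | succ n ih =>
      have a1 : ∑' y, ν (n + 1) y * V y + 1 = ∑' x, ν n x * (∑' y, P x y * V y + 1) := by
        simp only [νs, mul_add, ENNReal.tsum_add, mul_one, m1, ← ENNReal.tsum_mul_right,
          ← ENNReal.tsum_mul_left, mul_assoc]
        rw [ENNReal.tsum_comm]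
      have a2 : ∑' x, ν n x * (V x + if x ∈ F then b else 0) =
          ∑' y, ν n y * V y + b * ∑ x ∈ F, ν n x := by
        simp only [mul_add, ENNReal.tsum_add]
        rw [tsum_eq_sum (s := F) (f := fun x => ν n x * if x ∈ F then b else 0)
          fun x hx => by simp [hx], mul_sum]
        congr 1
        exact sum_congr rfl fun x hx => by simp [hx, mul_comm]
      have a3 : ∑' y, ν (n + 1) y * V y + 1 ≤ ∑' y, ν n y * V y + b * ∑ x ∈ F, ν n x := by
        rw [a1, ← a2]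
        exact ENNReal.tsum_le_tsum fun x => mul_le_mul' le_rfl (hd x)
      rw [sum_range_succ, mul_add, Nat.cast_succ]
      calc _ = (∑' y, ν (n + 1) y * V y + 1) + n := by ring
        _ ≤ (∑' y, ν n y * V y + b * ∑ x ∈ F, ν n x) + n := by gcongr
        _ = (∑' y, ν n y * V y + n) + b * ∑ x ∈ F, ν n x := by ring
        _ ≤ _ := by rw [← add_assoc]; gcongr
  set μ : ℕ → X → ℝ≥0∞ := fun n y => (∑ i ∈ range (n + 1), ν i y) * ((n + 1 : ℕ) : ℝ≥0∞)⁻¹
    with hμ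
  have c0 : ∀ n : ℕ, ((n + 1 : ℕ) : ℝ≥0∞) * ((n + 1 : ℕ) : ℝ≥0∞)⁻¹ = 1 := fun n =>
    ENNReal.mul_inv_cancel (by simp) (by simp)
  have m2 : ∀ n, ∑' y, μ n y = 1 := fun n => by
    simp only [hμ, ENNReal.tsum_mul_right]
    rw [Summable.tsum_finsetSum fun _ _ => ENNReal.summable]
    simp only [m1, sum_const, card_range, nsmul_eq_mul, mul_one, c0]
  have m3 : ∀ n : ℕ, 1 ≤ V x0 * ((n + 1 : ℕ) : ℝ≥0∞)⁻¹ + b * ∑ x ∈ F, μ n x := fun n => by
    have := mul_le_mul_left (le_add_self.trans (d1 (n + 1))) ((n + 1 : ℕ) : ℝ≥0∞)⁻¹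
    rw [c0, add_mul, sum_comm, mul_assoc, sum_mul] at this
    exact this
  have m4 : ∀ n y, ∑' x, μ n x * P x y ≤ μ n y + ((n + 1 : ℕ) : ℝ≥0∞)⁻¹ := fun n y => by
    have a1 : ∑' x, μ n x * P x y =
        (∑ i ∈ range (n + 1), ν (i + 1) y) * ((n + 1 : ℕ) : ℝ≥0∞)⁻¹ := by
      simp only [hμ, νs]
      rw [← Summable.tsum_finsetSum fun _ _ => ENNReal.summable, ← ENNReal.tsum_mul_right]
      exact tsum_congr fun x => by rw [mul_right_comm, sum_mul]
    have a2 : ∑ i ∈ range (n + 1), ν (i + 1) y ≤ ∑ i ∈ range (n + 1), ν i y + 1 := by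
      rw [sum_range_succ, sum_range_succ' (fun i => ν i y)]
      exact add_le_add le_self_add (m1 (n + 1) ▸ ENNReal.le_tsum y)
    rw [a1]
    refine (mul_le_mul_left a2 _).trans (le_of_eq ?_)
    rw [add_mul, one_mul]
  obtain ⟨m, -, hm⟩ := isCompact_univ.ultrafilter_le_nhds ((hyperfilter ℕ).map μ) (by simp)
  have hU : (hyperfilter ℕ : Filter ℕ) ≤ atTop := Nat.hyperfilter_le_atTop
  have t1 : ∀ y, Tendsto (fun n => μ n y) (hyperfilter ℕ) (𝓝 (m y)) := tendsto_pi_nhds.mp hm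
  have t0 : Tendsto (fun n : ℕ => ((n + 1 : ℕ) : ℝ≥0∞)⁻¹) (hyperfilter ℕ) (𝓝 0) :=
    (ENNReal.tendsto_inv_nat_nhds_zero.comp (tendsto_add_atTop_nat 1)).mono_left hU
  have l1 : ∑' y, m y ≤ 1 := by
    rw [ENNReal.tsum_eq_iSup_sum]
    exact iSup_le fun s => le_of_tendsto' (tendsto_finsetSum s fun y _ => t1 y) fun n =>
      m2 n ▸ ENNReal.sum_le_tsum s
  have l2 : 1 ≤ b * ∑ x ∈ F, m x := by
    have := (ENNReal.Tendsto.const_mul t0 (Or.inr hV)).add
      (ENNReal.Tendsto.const_mul (tendsto_finsetSum F fun y _ => t1 y) (Or.inr hb))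
    simpa using ge_of_tendsto' this m3
  have l3 : ∀ y, ∑' x, m x * P x y ≤ m y := fun y => by
    rw [ENNReal.tsum_eq_iSup_sum]
    refine iSup_le fun s => ?_
    have := le_of_tendsto_of_tendsto' (tendsto_finsetSum s fun x _ =>
      ENNReal.Tendsto.mul_const (b := P x y) (t1 x) (Or.inr (ne_top_of_le_ne_top ENNReal.one_ne_top
        (hP x ▸ ENNReal.le_tsum y)))) ((t1 y).add t0) fun n =>
      (ENNReal.sum_le_tsum s).trans (m4 n y)
    simpa using this
  have fin : ∑' y, m y ≠ ⊤ := ne_top_of_le_ne_top ENNReal.one_ne_top l1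
  have l4 : ∀ y, m y = ∑' x, m x * P x y := fun y => by
    by_contra hne
    have := ENNReal.tsum_lt_tsum (f := fun y => ∑' x, m x * P x y) (g := m) (i := y)
      (by rwa [mass]) l3 (lt_of_le_of_ne (l3 y) (Ne.symm hne))
    rw [mass] at this
    exact lt_irrefl _ this
  have pos : ∑' y, m y ≠ 0 := fun h => by
    have : ∑ x ∈ F, m x = 0 := le_antisymm (h ▸ ENNReal.sum_le_tsum F) zero_le
    simp [this] at l2
  refine ⟨fun x => (∑' y, m y)⁻¹ * m x, ?_, fun y => ?_⟩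
  · rw [ENNReal.tsum_mul_left, ENNReal.inv_mul_cancel pos fin]
  · simp only [mul_assoc, ENNReal.tsum_mul_left, ← l4]

theorem foster_real {X : Type} (P : X → X → ℝ) (hP0 : ∀ x y, 0 ≤ P x y)
    (hP : ∀ x, HasSum (P x) 1) (V : X → ℝ) (hV : ∀ x, 0 ≤ V x) (x0 : X) (r : X → ℝ)
    (hs : ∀ x, Summable fun y => P x y * V y) (hr : ∀ x, ∑' y, P x y * V y ≤ r x)
    (hF : {x | ¬ r x + 1 ≤ V x}.Finite) :
    ∃ μ : X → ℝ, (∀ x, 0 ≤ μ x) ∧ HasSum μ 1 ∧ ∀ y, HasSum (fun x => μ x * P x y) (μ y) := by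
  classical
  obtain ⟨m, h1, h2⟩ := foster_enn (fun x y => ENNReal.ofReal (P x y))
    (fun x => by rw [← ENNReal.ofReal_tsum_of_nonneg (hP0 x) (hP x).summable, (hP x).tsum_eq,
      ENNReal.ofReal_one]) (fun x => ENNReal.ofReal (V x)) x0 ENNReal.ofReal_ne_top hF.toFinset
    (∑ x ∈ hF.toFinset, ENNReal.ofReal (r x + 1)) (by simp) fun x => by
      have r0 : 0 ≤ ∑' y, P x y * V y := tsum_nonneg fun y => mul_nonneg (hP0 x y) (hV y)
      have a1 : ∑' y, ENNReal.ofReal (P x y) * ENNReal.ofReal (V y) + 1 ≤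
          ENNReal.ofReal (r x + 1) := by
        simp only [← ENNReal.ofReal_mul (hP0 x _)]
        rw [← ENNReal.ofReal_tsum_of_nonneg (fun y => mul_nonneg (hP0 x y) (hV y)) (hs x),
          ← ENNReal.ofReal_one, ← ENNReal.ofReal_add r0 zero_le_one]
        exact ENNReal.ofReal_le_ofReal (by linarith [hr x])
      refine a1.trans ?_
      split_ifs with hx
      · exact le_add_left (single_le_sum (f := fun x => ENNReal.ofReal (r x + 1))
          (fun _ _ => zero_le) hx)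
      · rw [add_zero]
        exact ENNReal.ofReal_le_ofReal (by simpa using hx)
  have f1 : ∀ x, m x ≠ ⊤ := fun x =>
    ne_top_of_le_ne_top ENNReal.one_ne_top (h1 ▸ ENNReal.le_tsum x)
  refine ⟨fun x => (m x).toReal, fun x => ENNReal.toReal_nonneg, ?_, fun y => ?_⟩
  · have := ENNReal.hasSum_toReal (f := m) (by rw [h1]; exact ENNReal.one_ne_top)
    rwa [← ENNReal.tsum_toReal_eq f1, h1, ENNReal.toReal_one] at this
  · have := ENNReal.hasSum_toReal (f := fun x => m x * ENNReal.ofReal (P x y))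
      (by rw [← h2]; exact f1 y)
    rw [← ENNReal.tsum_toReal_eq fun x => ENNReal.mul_ne_top (f1 x) ENNReal.ofReal_ne_top,
      ← h2] at this
    simpa only [ENNReal.toReal_mul, ENNReal.toReal_ofReal (hP0 _ _)] using this

end Pool.Agent.H46.RA
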