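import Mathlib
import Pool.Agent.H46.RA.Foster

set_option autoImplicit false

namespace Pool.Agent.H46.RA

open Filter Finset Topology

noncomputable def pois (lam : ℝ) (n : ℕ) : ℝ := Real.exp (-lam) * lam ^ n / (n.factorial : ℝ)

noncomputable def qq (w : ℕ) (p : ℝ) : ℝ := (w : ℝ) * p * (1 - p) ^ (w - 1)

lemma pois_nonneg {lam : ℝ} (h : 0 ≤ lam) (n : ℕ) : 0 ≤ pois lam n := by unfold pois; positivity

lemma pois_sum (lam : ℝ) : HasSum (pois lam) 1 := by
  have := (NormedSpace.expSeries_div_hasSum_exp lam).mul_left (Real.exp (-lam))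
  rw [← Real.exp_eq_exp_ℝ, ← Real.exp_add, neg_add_cancel, Real.exp_zero] at this
  exact HasSum.congr_fun this fun n => by unfold pois; ring

lemma pois_mean (lam : ℝ) : HasSum (fun n : ℕ => pois lam n * n) lam := by
  rw [← hasSum_nat_add_iff' 1]
  simp only [range_one, sum_singleton, Nat.cast_zero, mul_zero, sub_zero]
  have := (pois_sum lam).mul_left lam
  rw [mul_one] at this
  refine HasSum.congr_fun this fun n => ?_
  unfold pois
  rw [Nat.factorial_succ]
  push_cast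
  field_simp
  ring

lemma pois_lin {lam : ℝ} (h : 0 ≤ lam) (φ : ℕ → ℝ) (h0 : ∀ n, 0 ≤ φ n) (α L ζ : ℝ)
    (hφ : ∀ n : ℕ, φ n ≤ α + n * L + if n = 0 then ζ else 0) :
    ∃ a, HasSum (fun n => pois lam n * φ n) a ∧ a ≤ α + lam * L + Real.exp (-lam) * ζ := by
  have h1 := (((pois_sum lam).mul_right α).add ((pois_mean lam).mul_right L)).add
    (hasSum_ite_eq 0 (Real.exp (-lam) * ζ))
  have h2 : ∀ n, pois lam n * φ n ≤ pois lam n * α + pois lam n * n * L +
      if n = 0 then Real.exp (-lam) * ζ else 0 := fun n => by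
    refine (mul_le_mul_of_nonneg_left (hφ n) (pois_nonneg h n)).trans (le_of_eq ?_)
    split_ifs with hn
    · subst hn; simp [pois]; ring
    · ring
  have h3 := Summable.of_nonneg_of_le (fun n => mul_nonneg (pois_nonneg h n) (h0 n)) h2 h1.summable
  exact ⟨_, h3.hasSum, by simpa using hasSum_le h2 h3.hasSum h1⟩

lemma qq_mem (w : ℕ) {p : ℝ} (h0 : 0 ≤ p) (h1 : p ≤ 1) : 0 ≤ qq w p ∧ qq w p ≤ 1 := by
  have h2 : 0 ≤ 1 - p := by linarith
  refine ⟨by unfold qq; positivity, ?_⟩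
  cases w with
  | zero => simp [qq]
  | succ w =>
    simp only [qq, Nat.add_sub_cancel]
    have : ∀ n : ℕ, (n + 1 : ℝ) * p * (1 - p) ^ n + (1 - p) ^ (n + 1) ≤ 1 := by
      intro n
      induction n with
      | zero => simp
      | succ n ih =>
        have a1 : 0 ≤ (n + 1 : ℝ) * p * p * (1 - p) ^ n := by positivity
        push_cast
        rw [pow_succ (1 - p) (n + 1)]
        rw [pow_succ] at ih ⊢
        nlinarith
    have h3 := this w
    have h4 : 0 ≤ (1 - p) ^ (w + 1) := by positivity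
    push_cast
    linarith

theorem glue {S : Type} (s0 : S) (nxt : S → Bool → S) (p : S → ℝ) (hinj : Function.Injective p)
    (hp : ∀ s, 0 ≤ p s ∧ p s ≤ 1) (lam : ℝ) (hl : 0 < lam) (V : ℕ → S → ℝ)
    (hV : ∀ w s, 0 ≤ V w s) (α β ζ : ℕ → S → ℝ) (L : ℝ)
    (h1 : ∀ w s (n : ℕ), V (w - 1 + n) (nxt s true) ≤ α w s + n * L)
    (h2 : ∀ w s (n : ℕ), V (w + n) (nxt s false) ≤ β w s + n * L + if n = 0 then ζ w s else 0)
    (hF : {x : ℕ × S | ¬ qq x.1 (p x.2) * α x.1 x.2 + (1 - qq x.1 (p x.2)) *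
      (β x.1 x.2 + Real.exp (-lam) * ζ x.1 x.2) + lam * L + 1 ≤ V x.1 x.2}.Finite) :
    ∃ f : ℝ → Bool → ℝ,
        (∀ p ∈ Set.Icc (0:ℝ) 1, ∀ b : Bool, f p b ∈ Set.Icc (0:ℝ) 1) ∧
        ∃ π : ℕ → ℝ → ℝ,
          (∀ w p, 0 ≤ π w p) ∧
          (∀ w p, π w p ≠ 0 → p ∈ Set.Icc (0:ℝ) 1) ∧
          Summable (fun x : ℕ × ℝ => π x.1 x.2) ∧
          (∑' x : ℕ × ℝ, π x.1 x.2) = 1 ∧
          ∀ w' : ℕ, ∀ p' : ℝ,
            π w' p' = ∑' x : ℕ × ℝ, π x.1 x.2 *
              ((if x.1 ≤ w' + 1 ∧ f x.2 true = p' then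
                  qq x.1 x.2 * pois lam (w' + 1 - x.1) else 0) +
               (if x.1 ≤ w' ∧ f x.2 false = p' then
                  (1 - qq x.1 x.2) * pois lam (w' - x.1) else 0)) := by
  classical
  set P : ℕ × S → ℕ × S → ℝ := fun x y =>
    (if x.1 ≤ y.1 + 1 ∧ nxt x.2 true = y.2 then qq x.1 (p x.2) * pois lam (y.1 + 1 - x.1) else 0) +
    (if x.1 ≤ y.1 ∧ nxt x.2 false = y.2 then (1 - qq x.1 (p x.2)) * pois lam (y.1 - x.1) else 0)
    with hP
  have hq := fun x : ℕ × S => qq_mem x.1 (hp x.2).1 (hp x.2).2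
  have key : ∀ (x : ℕ × S) (φ : ℕ × S → ℝ) (a b : ℝ),
      HasSum (fun n => pois lam n * φ (x.1 - 1 + n, nxt x.2 true)) a →
      HasSum (fun n => pois lam n * φ (x.1 + n, nxt x.2 false)) b →
      HasSum (fun y => P x y * φ y) (qq x.1 (p x.2) * a + (1 - qq x.1 (p x.2)) * b) := by
    rintro ⟨w, s⟩ φ a b ha hb
    simp only [hP, add_mul]
    refine HasSum.add ?_ ?_
    · rcases Nat.eq_zero_or_pos w with rfl | hw
      · simp [qq]
      refine (Function.Injective.hasSum_iff (g := fun n => (w - 1 + n, nxt s true))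
        (fun a b h => by simpa using h) ?_).mp (HasSum.congr_fun (ha.mul_left _) fun n => ?_)
      · rintro ⟨w', s'⟩ hy
        rw [if_neg, zero_mul]
        rintro ⟨a1, a2⟩
        exact hy ⟨w' + 1 - w, by simp only [Prod.mk.injEq] at a1 a2 ⊢; exact ⟨by omega, a2⟩⟩
      · simp only [Function.comp]
        rw [if_pos ⟨by omega, trivial⟩, show w - 1 + n + 1 - w = n by omega, mul_assoc]
    · refine (Function.Injective.hasSum_iff (g := fun n => (w + n, nxt s false))
        (fun a b h => by simpa using h) ?_).mp (HasSum.congr_fun (hb.mul_left _) fun n => ?_)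
      · rintro ⟨w', s'⟩ hy
        rw [if_neg, zero_mul]
        rintro ⟨a1, a2⟩
        exact hy ⟨w' - w, by simp only [Prod.mk.injEq] at a1 a2 ⊢; exact ⟨by omega, a2⟩⟩
      · simp only [Function.comp]
        rw [if_pos ⟨by omega, trivial⟩, show w + n - w = n by omega, mul_assoc]
  have dr : ∀ x : ℕ × S, ∃ r, HasSum (fun y => P x y * V y.1 y.2) r ∧
      r ≤ qq x.1 (p x.2) * α x.1 x.2 + (1 - qq x.1 (p x.2)) *
        (β x.1 x.2 + Real.exp (-lam) * ζ x.1 x.2) + lam * L := fun x => by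
    obtain ⟨a, a1, a2⟩ := pois_lin hl.le (fun n => V (x.1 - 1 + n) (nxt x.2 true))
      (fun n => hV _ _) (α x.1 x.2) L 0 fun n => by simpa using h1 x.1 x.2 n
    obtain ⟨b, b1, b2⟩ := pois_lin hl.le (fun n => V (x.1 + n) (nxt x.2 false))
      (fun n => hV _ _) (β x.1 x.2) L (ζ x.1 x.2) (h2 x.1 x.2)
    refine ⟨_, key x (fun y => V y.1 y.2) a b a1 b1, ?_⟩
    have c1 := mul_le_mul_of_nonneg_left a2 (hq x).1
    have c2 := mul_le_mul_of_nonneg_left b2 (sub_nonneg.mpr (hq x).2)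
    linarith
  obtain ⟨μ, m0, m1, m2⟩ := foster_real P (fun x y => by
      have := hq x
      have := sub_nonneg.mpr (hq x).2
      have := pois_nonneg hl.le
      refine add_nonneg ?_ ?_ <;> split_ifs <;> first | exact le_rfl | apply mul_nonneg <;> tauto)
    (fun x => by
      simpa using key x (fun _ => 1) 1 1 (by simpa using pois_sum lam) (by simpa using pois_sum lam))
    (fun x => V x.1 x.2) (fun x => hV _ _) (0, s0) _ (fun x => (dr x).choose_spec.1.summable)
    (fun x => by rw [(dr x).choose_spec.1.tsum_eq]; exact (dr x).choose_spec.2) hF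
  set e : ℕ × S → ℕ × ℝ := fun x => (x.1, p x.2) with he
  have einj : Function.Injective e := fun x y h => by
    simp only [he, Prod.mk.injEq] at h
    exact Prod.ext h.1 (hinj h.2)
  set π : ℕ → ℝ → ℝ := fun w => Function.extend p (fun s => μ (w, s)) 0 with hπ
  set f : ℝ → Bool → ℝ := fun t b => Function.extend p (fun s => p (nxt s b)) 0 t with hf
  have π1 : ∀ w s, π w (p s) = μ (w, s) := fun w s => hinj.extend_apply _ _ s
  have π2 : ∀ w t, (¬ ∃ s, p s = t) → π w t = 0 := fun w t h => Function.extend_apply' _ _ _ h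
  have f1 : ∀ s b, f (p s) b = p (nxt s b) := fun s b => hinj.extend_apply _ _ s
  have z : ∀ x : ℕ × ℝ, x ∉ Set.range e → π x.1 x.2 = 0 := fun x hx =>
    π2 _ _ fun ⟨s, hs⟩ => hx ⟨(x.1, s), Prod.ext rfl hs⟩
  have hs : HasSum (fun x : ℕ × ℝ => π x.1 x.2) 1 :=
    (einj.hasSum_iff z).mp (HasSum.congr_fun m1 fun x => π1 _ _)
  refine ⟨f, fun t _ b => ?_, π, fun w t => ?_, fun w t h => ?_, hs.summable, hs.tsum_eq,
    fun w' p' => ?_⟩
  · by_cases h : ∃ s, p s = t
    · obtain ⟨s, rfl⟩ := h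
      rw [f1]; exact hp _
    · rw [show f t b = 0 from Function.extend_apply' _ _ _ h]; simp
  · by_cases h : ∃ s, p s = t
    · obtain ⟨s, rfl⟩ := h
      rw [π1]; exact m0 _
    · rw [π2 _ _ h]
  · obtain ⟨s, rfl⟩ : ∃ s, p s = t := by_contra fun h' => h (π2 _ _ h')
    exact hp s
  · rw [← einj.tsum_eq (fun x hx => by_contra fun h => hx (by simp only [z x h, zero_mul]))]
    simp only [he, π1, f1]
    by_cases h : ∃ s, p s = p'
    · obtain ⟨s, rfl⟩ := h
      simp only [π1, hinj.eq_iff]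
      exact (m2 (w', s)).tsum_eq.symm
    · rw [π2 _ _ h]
      have : ∀ s, p s ≠ p' := fun s e => h ⟨s, e⟩
      simp [this]

end Pool.Agent.H46.RA
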