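import Mathlib

set_option autoImplicit false

namespace Pool.Agent.H46.RA

def cap (j : ℕ) : ℕ := 1152 * j + 575

noncomputable def T (n : ℕ) : ℝ := 576 * (n : ℝ) ^ 2

noncomputable def γ : ℝ := 63 / 64

noncomputable def g (k : ℕ) : ℝ := γ ^ cap k

noncomputable def rest (k j K : ℕ) : ℝ :=
  if j < k ∧ k ≤ K then T k + g k * T (K + 1)
  else if k ≤ K then T (K + 1) + T k + g k * T (K + 2)
  else T (K + 1) + (k - K) * T k + g k * T (k + 1)

noncomputable def h (k : ℕ) (x : ℕ × ℕ × ℕ) : ℝ :=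
  if x.1 = k then γ ^ x.2.1 * T (x.2.2 + 1) else x.2.1 + 1 - T (x.1 + 1) + rest k x.1 x.2.2

def ok (x : ℕ × ℕ × ℕ) : Prop := x.1 ≤ x.2.2 ∧ x.2.1 ≤ cap x.1

def up (C : ℕ) (x : ℕ × ℕ × ℕ) : ℕ × ℕ × ℕ :=
  (x.1, min (x.2.1 + 64) (cap x.1), min x.2.2 (2 * x.1 + C))

def dn (x : ℕ × ℕ × ℕ) : ℕ × ℕ × ℕ :=
  if 0 < x.2.1 then (x.1, x.2.1 - 1, x.2.2)
  else if x.1 < x.2.2 then (x.1 + 1, cap (x.1 + 1), x.2.2) else (0, cap 0, x.2.2 + 1)

lemma ok_up (C : ℕ) {x : ℕ × ℕ × ℕ} (hx : ok x) : ok (up C x) := by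
  unfold ok up at *; simp only; omega

lemma ok_dn {x : ℕ × ℕ × ℕ} (hx : ok x) : ok (dn x) := by
  unfold ok dn at *; split_ifs <;> simp only <;> omega

lemma T0 (n : ℕ) : 0 ≤ T n := by unfold T; positivity

lemma Tm {a b : ℕ} (h : a ≤ b) : T a ≤ T b := by unfold T; gcongr

lemma Ts (j : ℕ) : T (j + 1) = T j + cap j + 1 := by unfold T cap; push_cast; ring

lemma γ0 : 0 < γ := by unfold γ; norm_num

lemma γ1 : γ ≤ 1 := by unfold γ; norm_num

lemma γ64 : γ ^ 64 ≤ 1 / 2 := by unfold γ; norm_num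

lemma g0 (k : ℕ) : 0 ≤ g k := pow_nonneg γ0.le _

lemma g_le (k : ℕ) : g k ≤ 1 / 256 / 2 ^ k := by
  calc g k ≤ γ ^ (64 * (k + 8)) := pow_le_pow_of_le_one γ0.le γ1 (by unfold cap; omega)
    _ ≤ (1 / 2) ^ (k + 8) := by rw [pow_mul]; exact pow_le_pow_left₀ (pow_nonneg γ0.le _) γ64 _
    _ = _ := by rw [one_div_pow, pow_add]; field_simp; norm_num

lemma g_le' (k : ℕ) : g k ≤ 1 / 256 :=
  (g_le k).trans (div_le_self (by norm_num) (one_le_pow₀ (by norm_num)))

lemma g_anti (k : ℕ) : g (k + 1) ≤ g k := pow_le_pow_of_le_one γ0.le γ1 (by unfold cap; omega)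

lemma T4 (K : ℕ) : T (K + 2) ≤ 4 * T (K + 1) := by
  unfold T; push_cast
  have : (0 : ℝ) ≤ K := by positivity
  nlinarith

lemma h0 (k : ℕ) {x : ℕ × ℕ × ℕ} (hx : ok x) : 0 ≤ h k x := by
  obtain ⟨j, c, K⟩ := x
  obtain ⟨h1, h2⟩ := hx
  simp only [h, rest] at *
  have a1 := fun n => mul_nonneg (g0 k) (T0 n)
  have a2 := Tm (show j + 1 ≤ K + 1 by omega)
  have a3 : (0 : ℝ) ≤ c := by positivity
  have a4 := T0 k
  split_ifs with c1 c2 c3
  · exact mul_nonneg (pow_nonneg γ0.le _) (T0 _)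
  · linarith [a1 (K + 1), Tm (show j + 1 ≤ k by omega)]
  · linarith [a1 (K + 2)]
  · have : (K : ℝ) ≤ k := by exact_mod_cast (show K ≤ k by omega)
    nlinarith [a1 (k + 1)]

lemma hF (k : ℕ) {x : ℕ × ℕ × ℕ} (hx : ok x) (hk : x.1 ≠ k) : h k (dn x) ≤ h k x - 1 := by
  obtain ⟨j, c, K⟩ := x
  obtain ⟨h1, h2⟩ := hx
  simp only at h1 h2 hk
  have z : T 0 = 0 := by simp [T]
  by_cases c1 : 0 < c
  · simp only [dn, c1, if_true, h, hk, if_false, Nat.cast_pred c1]; linarith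
  obtain rfl : c = 0 := by omega
  by_cases c2 : j < K
  · simp only [dn, c2, lt_irrefl, if_true, if_false, h, hk]
    split_ifs with c3
    · subst c3
      rw [rest, if_pos (by omega)]
      simp only [g]; push_cast; linarith
    · have : rest k (j + 1) K = rest k j K := by
        unfold rest; simp only [show j + 1 < k ↔ j < k by omega]
      rw [this, Ts (j + 1)]
      push_cast; linarith
  obtain rfl : j = K := by omega
  simp only [dn, lt_irrefl, if_false, h, hk, rest]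
  have := Ts 0
  split_ifs <;> try omega
  · subst_vars; simp only [g]; push_cast; linarith
  · push_cast; linarith
  · obtain rfl : k = j + 1 := by omega
    push_cast; linarith
  · have := Tm (show j + 1 + 1 ≤ k by omega)
    push_cast; linarith

lemma hF' {x : ℕ × ℕ × ℕ} (hx : ok x) : h x.1 (dn x) ≤ h x.1 x / γ := by
  obtain ⟨j, c, K⟩ := x
  obtain ⟨h1, h2⟩ := hx
  simp only at h1 h2 ⊢
  have z : T 0 = 0 := by simp [T]
  by_cases c1 : 0 < c
  · obtain ⟨c, rfl⟩ : ∃ d, c = d + 1 := ⟨c - 1, by omega⟩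
    simp only [dn, c1, if_true, h, Nat.add_sub_cancel]
    have := γ0
    rw [pow_succ]; field_simp; rfl
  obtain rfl : c = 0 := by omega
  have a1 : g j * T (K + 2) ≤ 1 / 256 * (4 * T (K + 1)) :=
    mul_le_mul (g_le' j) (T4 K) (T0 _) (by norm_num)
  have a2 := T0 (K + 1)
  have a3 := Tm (Nat.le_succ j)
  have a4 := Ts (j + 1)
  have a5 := Ts 0
  by_cases c2 : j < K
  · simp only [dn, c2, lt_irrefl, if_true, if_false, h, Nat.succ_ne_self, rest]
    rw [if_neg (by omega), if_pos (by omega)]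
    simp only [γ, pow_zero]
    linarith
  obtain rfl : j = K := by omega
  simp only [dn, lt_irrefl, if_false, h, rest, if_true, pow_zero]
  split_ifs <;> try omega
  · subst_vars; simp only [g, γ] at *; linarith
  · simp only [γ]; linarith

noncomputable def Q (k : ℕ) : ℝ := 1728 * ((k : ℝ) + 2) ^ 3

lemma TQ (k : ℕ) : (k + 1 : ℝ) * T (k + 2) ≤ Q k / 3 ∧ T (k + 2) ≤ Q k / 3 := by
  unfold T Q; push_cast
  have : (0 : ℝ) ≤ k := by positivity
  constructor <;> nlinarith [sq_nonneg ((k : ℝ) + 2)]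

lemma Q0 (k : ℕ) : 0 ≤ Q k := by unfold Q; positivity

lemma hS (C k : ℕ) {x : ℕ × ℕ × ℕ} (hx : ok x) (hk : x.1 ≠ k) :
    h k (up C x) ≤ h k x + 64 + if 2 * x.1 + C < k then Q k else 0 := by
  obtain ⟨j, c, K⟩ := x
  obtain ⟨h1, h2⟩ := hx
  simp only at h1 h2 hk
  simp only [h, up, hk, if_false]
  have a1 : ((min (c + 64) (cap j) : ℕ) : ℝ) ≤ c + 64 := by exact_mod_cast min_le_left _ _
  suffices rest k j (min K (2 * j + C)) ≤ rest k j K + if 2 * j + C < k then Q k else 0 by linarith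
  have q0 : 0 ≤ if 2 * j + C < k then Q k else 0 := by split_ifs; exacts [Q0 k, le_rfl]
  rcases le_total K (2 * j + C) with c1 | c1
  · rw [min_eq_left c1]; linarith
  rw [min_eq_right c1]
  have b1 := Tm (Nat.succ_le_succ c1)
  have b2 := mul_le_mul_of_nonneg_left b1 (g0 k)
  have b3 := mul_le_mul_of_nonneg_left (Tm (Nat.add_le_add_right c1 2)) (g0 k)
  by_cases c2 : 2 * j + C < k
  · have d0 : 0 ≤ rest k j K := by
      have a1 := fun n => mul_nonneg (g0 k) (T0 n)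
      have := T0 k
      have := T0 (K + 1)
      unfold rest; split_ifs
      · linarith [a1 (K + 1)]
      · linarith [a1 (K + 2)]
      · have : (K : ℝ) ≤ k := by exact_mod_cast (show K ≤ k by omega)
        nlinarith [a1 (k + 1)]
    rw [if_pos c2, rest, if_neg (by omega), if_neg (by omega)]
    obtain ⟨t1, t2⟩ := TQ k
    have e1 := Tm (show 2 * j + C + 1 ≤ k + 2 by omega)
    have e2 : g k * T (k + 1) ≤ 1 * T (k + 2) :=
      mul_le_mul ((g_le' k).trans (by norm_num)) (Tm (by omega)) (T0 _) zero_le_one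
    have e3 : ((k : ℝ) - (2 * j + C : ℕ)) * T k ≤ (k + 1) * T (k + 2) :=
      mul_le_mul (by have : (0 : ℝ) ≤ (2 * j + C : ℕ) := by positivity
                     linarith) (Tm (by omega)) (T0 _) (by positivity)
    linarith
  · rw [if_neg c2]
    unfold rest
    split_ifs <;> first | omega | linarith

lemma hS' (C : ℕ) (x : ℕ × ℕ × ℕ) :
    h x.1 (up C x) ≤ h x.1 x / 2 + g x.1 * T (2 * x.1 + C + 1) := by
  obtain ⟨j, c, K⟩ := x
  simp only [h, up, if_true]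
  have a1 := Tm (Nat.succ_le_succ (min_le_left K (2 * j + C)))
  have a2 := Tm (Nat.succ_le_succ (min_le_right K (2 * j + C)))
  have a3 := pow_nonneg γ0.le c
  have a4 := mul_nonneg a3 (T0 (K + 1))
  have a5 := mul_nonneg (g0 j) (T0 (2 * j + C + 1))
  rcases le_total (c + 64) (cap j) with c1 | c1
  · rw [min_eq_left c1, pow_add]
    have : γ ^ c * γ ^ 64 * T (min K (2 * j + C) + 1) ≤ γ ^ c * (1 / 2) * T (K + 1) :=
      mul_le_mul (mul_le_mul_of_nonneg_left γ64 a3) a1 (T0 _) (by positivity)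
    linarith
  · rw [min_eq_right c1]
    have := mul_le_mul_of_nonneg_left a2 (g0 j)
    simp only [g] at *
    linarith

lemma hU (k : ℕ) {x : ℕ × ℕ × ℕ} (hx : ok x) : h (k + 1) x - h k x ≤ Q k := by
  have z := h0 k hx
  obtain ⟨j, c, K⟩ := x
  obtain ⟨h1, h2⟩ := hx
  simp only at h1 h2
  obtain ⟨t1, t2⟩ := TQ k
  have q0 := Q0 k
  have c1 : (c : ℝ) ≤ cap j := by exact_mod_cast h2
  have c2 := Ts j
  have c3 := T0 j
  have c4 := T0 k
  have c5 := Tm (Nat.le_succ (k + 1))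
  have c6 := fun n => mul_le_mul_of_nonneg_right (g_anti k) (T0 n)
  by_cases d1 : K ≤ k
  · have e1 := Tm (show K + 1 ≤ k + 2 by omega)
    have e2 : g (k + 1) * T (k + 2) ≤ 1 * T (k + 2) :=
      mul_le_mul_of_nonneg_right ((g_le' _).trans (by norm_num)) (T0 _)
    have e3 : (((k + 1 : ℕ) : ℝ) - K) * T (k + 1) ≤ (k + 1) * T (k + 2) :=
      mul_le_mul (by push_cast; linarith [Nat.cast_nonneg (α := ℝ) K]) c5 (T0 _) (by positivity)
    have : h (k + 1) (j, c, K) ≤ Q k := by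
      simp only [h, rest]
      rw [if_neg (by omega), if_neg (by omega), if_neg (by omega)]
      linarith
    linarith
  simp only [h, rest]
  split_ifs <;> try omega
  · subst_vars
    have e1 : γ ^ c * T (K + 1) ≤ 1 * T (K + 1) :=
      mul_le_mul_of_nonneg_right (pow_le_one₀ γ0.le γ1) (T0 _)
    have e2 := mul_nonneg (g0 k) (T0 (K + 2))
    have : (0 : ℝ) ≤ c := by positivity
    linarith
  · subst_vars
    have e1 : g (j + 1) * T (K + 1) ≤ γ ^ c * T (K + 1) := mul_le_mul_of_nonneg_right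
      ((g_anti j).trans (pow_le_pow_of_le_one γ0.le γ1 h2)) (T0 _)
    linarith
  · linarith [c6 (K + 1)]
  · linarith [c6 (K + 2)]

lemma hB (k : ℕ) {x : ℕ × ℕ × ℕ} (hx : ok x) : h k x ≤ Q k + 2 * T (x.2.2 + 2) := by
  obtain ⟨j, c, K⟩ := x
  obtain ⟨h1, h2⟩ := hx
  simp only at h1 h2
  obtain ⟨t1, t2⟩ := TQ k
  have q0 := Q0 k
  have c1 : (c : ℝ) ≤ cap j := by exact_mod_cast h2
  have c2 := Ts j
  have c3 := T0 j
  have c4 := Tm (show k ≤ k + 2 by omega)
  have c5 := Tm (Nat.le_succ (K + 1))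
  have c6 : ∀ n, g k * T n ≤ 1 * T n := fun n =>
    mul_le_mul_of_nonneg_right ((g_le' _).trans (by norm_num)) (T0 _)
  have c7 := T0 (K + 1)
  simp only [h, rest]
  split_ifs
  · have e1 : γ ^ c * T (K + 1) ≤ 1 * T (K + 1) :=
      mul_le_mul_of_nonneg_right (pow_le_one₀ γ0.le γ1) (T0 _)
    linarith
  · linarith [c6 (K + 1)]
  · linarith [c6 (K + 2)]
  · have e3 : ((k : ℝ) - K) * T k ≤ (k + 1) * T (k + 2) :=
      mul_le_mul (by linarith [Nat.cast_nonneg (α := ℝ) K]) c4 (T0 _) (by positivity)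
    linarith [c6 (k + 1), Tm (show k + 1 ≤ k + 2 by omega)]

noncomputable def H (W : ℕ) (x : ℕ × ℕ × ℕ) : ℝ :=
  h (Nat.log 2 W) x + (W / 2 ^ Nat.log 2 W - 1) * (h (Nat.log 2 W + 1) x - h (Nat.log 2 W) x)

lemma H_step (W : ℕ) (hW : W ≠ 0) (x : ℕ × ℕ × ℕ) :
    H (W + 1) x - H W x = (h (Nat.log 2 W + 1) x - h (Nat.log 2 W) x) / 2 ^ Nat.log 2 W := by
  have a1 := Nat.pow_log_le_self 2 hW
  have a2 := Nat.lt_pow_succ_log_self (b := 2) (by norm_num) W
  unfold H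
  rcases (Nat.succ_le_of_lt a2).lt_or_eq with c | c
  · rw [Nat.log_eq_of_pow_le_of_lt_pow (n := W + 1) (m := Nat.log 2 W) (by omega) c]
    push_cast; ring
  · have e : (W : ℝ) + 1 = 2 ^ (Nat.log 2 W + 1) := by exact_mod_cast c
    have e2 : Nat.log 2 (W + 1) = Nat.log 2 W + 1 := by
      rw [show W + 1 = 2 ^ (Nat.log 2 W + 1) from c, Nat.log_pow (by norm_num)]
    rw [e2]
    push_cast
    rw [e, show (W : ℝ) = 2 ^ (Nat.log 2 W + 1) - 1 by linarith]
    field_simp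
    ring

lemma theta (W : ℕ) (hW : W ≠ 0) :
    0 ≤ (W : ℝ) / 2 ^ Nat.log 2 W - 1 ∧ (W : ℝ) / 2 ^ Nat.log 2 W - 1 ≤ 1 := by
  have a1 : (2 : ℝ) ^ Nat.log 2 W ≤ W := by exact_mod_cast Nat.pow_log_le_self 2 hW
  have a2 : (W : ℝ) ≤ 2 ^ (Nat.log 2 W + 1) := by
    exact_mod_cast (Nat.lt_pow_succ_log_self (b := 2) (by norm_num) W).le
  rw [sub_nonneg, sub_le_iff_le_add, le_div_iff₀ (by positivity), div_le_iff₀ (by positivity)]
  rw [pow_succ] at a2
  constructor <;> linarith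

lemma H0 (W : ℕ) (hW : W ≠ 0) {x : ℕ × ℕ × ℕ} (hx : ok x) : 0 ≤ H W x := by
  obtain ⟨t1, t2⟩ := theta W hW
  have a1 := h0 (Nat.log 2 W) hx
  have a2 := h0 (Nat.log 2 W + 1) hx
  unfold H
  nlinarith

end Pool.Agent.H46.RA
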